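import Mathlib

open Filter Topology
open scoped ENNReal

namespace Pool.Agent.Results.MP_6a29fd_al.NoLimit

/-- One step of the lazy random walk: with probability `1/2` stay, otherwise multiply by a
uniformly chosen element of `S`. -/
noncomputable def lazyStep {G : Type} [Group G] (S : Finset G) (hS : S.Nonempty) : PMF G :=
  (PMF.uniformOfFintype Bool).bind fun b =>
    if b then PMF.pure 1 else PMF.uniformOfFinset S hS

/-- The law of the position `R_n` at time `n` of the walk with step law `μ`: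
`R_0 = 1`, `R_{n+1} = R_n ξ_{n+1}`. -/
noncomputable def walk {G : Type} [Group G] (μ : PMF G) : ℕ → PMF G
  | 0 => PMF.pure 1
  | n + 1 => (walk μ n).bind fun g => μ.map fun s => g * s

open Classical in
/-- The probability that `d` independent copies of `R_n` satisfy `w`. -/
noncomputable def lawProb {G : Type} [Group G] (μ : PMF G) {d : ℕ} (w : FreeGroup (Fin d))
    (n : ℕ) : ℝ≥0∞ :=
  ∑' g : Fin d → G, if FreeGroup.lift g w = 1 then ∏ i, walk μ n (g i) else 0

/-! ### Walks driven by a finite uniform source -/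

/-- The product `e(ω₀) e(ω₁) ⋯`. -/
def ev {G K : Type} [Group G] (e : K → G) {n : ℕ} (om : Fin n → K) : G :=
  (List.ofFn fun i => e (om i)).prod

theorem ev_cons {G K : Type} [Group G] (e : K → G) {n : ℕ} (k : K) (om : Fin n → K) :
    ev e (Fin.cons k om : Fin (n + 1) → K) = e k * ev e om := by
  simp [ev, List.ofFn_succ]

theorem ev_zero {G K : Type} [Group G] (e : K → G) (om : Fin 0 → K) : ev e om = 1 := by
  simp [ev]

theorem ev_snoc {G K : Type} [Group G] (e : K → G) {n : ℕ} (om : Fin n → K) (k : K) :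
    ev e (Fin.snoc om k : Fin (n + 1) → K) = ev e om * e k := by
  rw [ev, List.ofFn_succ']
  simp [ev, List.concat_eq_append]

theorem sum_cons {K M : Type} [Fintype K] [AddCommMonoid M] {n : ℕ}
    (F : (Fin (n + 1) → K) → M) :
    ∑ om, F om = ∑ k, ∑ om : Fin n → K, F (Fin.cons k om) := by
  rw [← Fintype.sum_prod_type']
  exact (Fintype.sum_equiv (Fin.consEquiv fun _ => K) _ _ (fun _ => rfl)).symm

theorem sum_snoc {K M : Type} [Fintype K] [AddCommMonoid M] {n : ℕ}
    (F : (Fin (n + 1) → K) → M) :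
    ∑ om, F om = ∑ k, ∑ om : Fin n → K, F (Fin.snoc om k) := by
  rw [← Fintype.sum_prod_type']
  exact (Fintype.sum_equiv (Fin.snocEquiv fun _ => K) _ _ (fun _ => rfl)).symm

open Classical in
theorem walk_eq {G K : Type} [Group G] [Fintype K] [Nonempty K] (e : K → G) (n : ℕ) (g : G) :
    walk ((PMF.uniformOfFintype K).map e) n g =
      ∑ om : Fin n → K, if g = ev e om then ((Fintype.card K : ℝ≥0∞)⁻¹) ^ n else 0 := by
  induction n generalizing g with
  | zero =>
    simp [walk, ev_zero, PMF.pure_apply]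
  | succ n ih =>
    rw [walk, PMF.bind_apply]
    have h1 : ∀ h : G, (((PMF.uniformOfFintype K).map e).map fun s => h * s) g =
        ∑ k, if g = h * e k then ((Fintype.card K : ℝ≥0∞)⁻¹) else 0 := by
      intro h
      rw [PMF.map_comp, PMF.map_apply, tsum_fintype]
      apply Finset.sum_congr rfl
      intro k _
      simp only [Function.comp_apply, PMF.uniformOfFintype_apply]
    simp only [h1, ih]
    rw [sum_snoc]
    have h2 : ∀ h : G, (∑ om : Fin n → K,
        if h = ev e om then ((Fintype.card K : ℝ≥0∞)⁻¹) ^ n else 0) *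
        (∑ k, if g = h * e k then ((Fintype.card K : ℝ≥0∞)⁻¹) else 0) =
        ∑' k : K, ∑' om : Fin n → K, if h = ev e om then
          (if g = ev e om * e k then ((Fintype.card K : ℝ≥0∞)⁻¹) ^ (n + 1) else 0) else 0 := by
      intro h
      rw [Finset.mul_sum, tsum_fintype]
      apply Finset.sum_congr rfl
      intro k _
      rw [Finset.sum_mul, tsum_fintype]
      apply Finset.sum_congr rfl
      intro om _
      by_cases hh : h = ev e om
      · subst hh
        rw [if_pos rfl, if_pos rfl]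
        split_ifs with h3
        · rw [pow_succ]
        · rw [mul_zero]
      · rw [if_neg hh, if_neg hh, zero_mul]
    rw [tsum_congr h2, ENNReal.tsum_comm, tsum_fintype]
    apply Finset.sum_congr rfl
    intro k _
    rw [ENNReal.tsum_comm, tsum_fintype]
    apply Finset.sum_congr rfl
    intro om _
    rw [tsum_ite_eq, ev_snoc]

open Classical in
theorem lawProb_eq {G K : Type} [Group G] [Fintype K] [Nonempty K] (e : K → G)
    (w : FreeGroup (Fin 2)) (n : ℕ) :
    lawProb ((PMF.uniformOfFintype K).map e) w n =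
      (∑ x : Fin n → K, ∑ y : Fin n → K,
        if FreeGroup.lift ![ev e x, ev e y] w = 1 then (1 : ℝ≥0∞) else 0) *
        ((Fintype.card K : ℝ≥0∞)⁻¹) ^ (2 * n) := by
  set c : ℝ≥0∞ := (Fintype.card K : ℝ≥0∞)⁻¹ ^ n with hc
  have hc2 : (Fintype.card K : ℝ≥0∞)⁻¹ ^ (2 * n) = c * c := by rw [hc, two_mul, pow_add]
  rw [hc2]
  unfold lawProb
  have h1 : ∀ g : Fin 2 → G,
      (if FreeGroup.lift g w = 1 then
        ∏ i, walk ((PMF.uniformOfFintype K).map e) n (g i) else 0) =
      ∑' x : Fin n → K, ∑' y : Fin n → K, if g = ![ev e x, ev e y] then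
        (if FreeGroup.lift ![ev e x, ev e y] w = 1 then (1 : ℝ≥0∞) else 0) * (c * c) else 0 := by
    intro g
    rw [Fin.prod_univ_two, walk_eq, walk_eq, tsum_fintype, ← hc, Finset.sum_mul]
    split_ifs with hg
    · apply Finset.sum_congr rfl
      intro x _
      rw [tsum_fintype, Finset.mul_sum]
      apply Finset.sum_congr rfl
      intro y _
      by_cases h : g = ![ev e x, ev e y]
      · have h0 : g 0 = ev e x := by rw [h]; rfl
        have h1 : g 1 = ev e y := by rw [h]; rfl
        rw [if_pos h0, if_pos h1, if_pos h, ← h, if_pos hg, one_mul]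
      · rw [if_neg h]
        by_cases h0 : g 0 = ev e x
        · have h1 : g 1 ≠ ev e y := by
            intro h1
            apply h
            funext i
            fin_cases i
            · exact h0
            · exact h1
          rw [if_neg h1, mul_zero]
        · rw [if_neg h0, zero_mul]
    · symm
      apply Finset.sum_eq_zero
      intro x _
      rw [tsum_fintype]
      apply Finset.sum_eq_zero
      intro y _
      split_ifs with h1 h2
      · rw [h1] at hg
        exact absurd h2 hg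
      · rw [zero_mul]
      · rfl
  rw [tsum_congr h1, ENNReal.tsum_comm, tsum_fintype, Finset.sum_mul]
  apply Finset.sum_congr rfl
  intro x _
  rw [ENNReal.tsum_comm, tsum_fintype, Finset.sum_mul]
  apply Finset.sum_congr rfl
  intro y _
  rw [tsum_ite_eq]

open Classical in
/-- Indicator function. -/
noncomputable def ind (P : Prop) : ℝ := if P then 1 else 0

theorem ind_nonneg (P : Prop) : 0 ≤ ind P := by
  unfold ind; split_ifs <;> norm_num

theorem ind_le_one (P : Prop) : ind P ≤ 1 := by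
  unfold ind; split_ifs <;> norm_num

theorem ind_mono {P Q : Prop} (h : P → Q) : ind P ≤ ind Q := by
  unfold ind
  by_cases hp : P
  · rw [if_pos hp, if_pos (h hp)]
  · rw [if_neg hp]; split_ifs <;> norm_num

theorem ind_true {P : Prop} (h : P) : ind P = 1 := by unfold ind; rw [if_pos h]

theorem ind_and_ge (P Q : Prop) : ind P + ind Q - 1 ≤ ind (P ∧ Q) := by
  by_cases hp : P <;> by_cases hq : Q <;> simp [ind, hp, hq]

theorem lawProb_eq_ofReal {G K : Type} [Group G] [Fintype K] [Nonempty K] (e : K → G)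
    (w : FreeGroup (Fin 2)) (n : ℕ) :
    lawProb ((PMF.uniformOfFintype K).map e) w n =
      ENNReal.ofReal ((∑ x : Fin n → K, ∑ y : Fin n → K,
        ind (FreeGroup.lift ![ev e x, ev e y] w = 1)) /
        (Fintype.card K : ℝ) ^ (2 * n)) := by
  classical
  have hK : (0 : ℝ) < Fintype.card K := by exact_mod_cast Fintype.card_pos
  rw [lawProb_eq, div_eq_mul_inv,
    ENNReal.ofReal_mul (Finset.sum_nonneg fun x _ => Finset.sum_nonneg fun y _ => ind_nonneg _),
    ENNReal.ofReal_inv_of_pos (by positivity), ENNReal.ofReal_pow hK.le, ENNReal.ofReal_natCast,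
    ENNReal.inv_pow]
  congr 1
  rw [ENNReal.ofReal_sum_of_nonneg (fun x _ => Finset.sum_nonneg fun y _ => ind_nonneg _)]
  apply Finset.sum_congr rfl
  intro x _
  rw [ENNReal.ofReal_sum_of_nonneg (fun y _ => ind_nonneg _)]
  apply Finset.sum_congr rfl
  intro y _
  unfold ind
  split_ifs <;> simp


/-! ### The groups -/

/-- Finitely supported lamp configurations. -/
abbrev V : Type := ℤ →₀ ZMod 2

/-- Shift by `z`. -/
noncomputable def sh (z : ℤ) : V →+ V := Finsupp.mapDomain.addMonoidHom (fun i => z + i)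

theorem sh_apply (z : ℤ) (f : V) (i : ℤ) : sh z f i = f (i - z) := by
  have h := Finsupp.mapDomain_apply (f := fun i : ℤ => z + i) (add_right_injective z) f (i - z)
  change (Finsupp.mapDomain (fun i => z + i) f) i = _
  simpa using h

theorem sh_zero (f : V) : sh 0 f = f := by
  ext i; rw [sh_apply, sub_zero]

theorem sh_sh (z w : ℤ) (f : V) : sh z (sh w f) = sh (z + w) f := by
  ext i
  rw [sh_apply, sh_apply, sh_apply]
  congr 1
  ring

/-- The bilinear form `∑_{i > j} k(i - j) f_i g_j`. -/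
noncomputable def beta (k : ℕ → ZMod 2) (f g : V) : ZMod 2 :=
  f.sum fun i a => g.sum fun j b => if j < i then k (i - j).toNat * a * b else 0

theorem beta_add_left (k : ℕ → ZMod 2) (f f' g : V) :
    beta k (f + f') g = beta k f g + beta k f' g := by
  unfold beta
  apply Finsupp.sum_add_index'
  · intro i
    simp [Finsupp.sum]
  · intro i a a'
    rw [← Finsupp.sum_add]
    apply Finsupp.sum_congr
    intro j _
    split_ifs
    · ring
    · simp

theorem beta_add_right (k : ℕ → ZMod 2) (f g g' : V) :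
    beta k f (g + g') = beta k f g + beta k f g' := by
  unfold beta
  rw [← Finsupp.sum_add]
  apply Finsupp.sum_congr
  intro i _
  apply Finsupp.sum_add_index'
  · intro j
    simp
  · intro j b b'
    split_ifs
    · ring
    · simp

theorem beta_zero_left (k : ℕ → ZMod 2) (g : V) : beta k 0 g = 0 := by
  simp [beta]

theorem beta_zero_right (k : ℕ → ZMod 2) (f : V) : beta k f 0 = 0 := by
  simp [beta]

theorem beta_neg_left (k : ℕ → ZMod 2) (f g : V) : beta k (-f) g = - beta k f g := by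
  have h := beta_add_left k f (-f) g
  rw [add_neg_cancel, beta_zero_left] at h
  exact (neg_eq_of_add_eq_zero_right h.symm).symm

theorem beta_neg_right (k : ℕ → ZMod 2) (f g : V) : beta k f (-g) = - beta k f g := by
  have h := beta_add_right k f g (-g)
  rw [add_neg_cancel, beta_zero_right] at h
  exact (neg_eq_of_add_eq_zero_right h.symm).symm

theorem beta_sh (k : ℕ → ZMod 2) (z : ℤ) (f g : V) : beta k (sh z f) (sh z g) = beta k f g := by
  unfold beta sh
  change (Finsupp.mapDomain (fun i => z + i) f).sum _ = _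
  rw [Finsupp.sum_mapDomain_index_inj (add_right_injective z)]
  apply Finsupp.sum_congr
  intro i _
  change (Finsupp.mapDomain (fun i => z + i) g).sum _ = _
  rw [Finsupp.sum_mapDomain_index_inj (add_right_injective z)]
  apply Finsupp.sum_congr
  intro j _
  simp

theorem beta_add_k (k k' : ℕ → ZMod 2) (f g : V) :
    beta (k + k') f g = beta k f g + beta k' f g := by
  unfold beta
  rw [← Finsupp.sum_add]
  apply Finsupp.sum_congr
  intro i _
  rw [← Finsupp.sum_add]
  apply Finsupp.sum_congr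
  intro j _
  split_ifs
  · simp only [Pi.add_apply]; ring
  · simp

/-- The group with lamp configurations in `V`, a central coordinate in `ZMod 2` twisted by the
cocycle `beta k`, and a position in `ℤ`. -/
@[ext] structure W (k : ℕ → ZMod 2) where
  /-- lamp configuration -/
  lamp : V
  /-- central coordinate -/
  cen : ZMod 2
  /-- position -/
  pos : ℤ

namespace W

variable {k : ℕ → ZMod 2}

noncomputable instance : Mul (W k) := ⟨fun x y =>
  ⟨x.lamp + sh x.pos y.lamp, x.cen + y.cen + beta k x.lamp (sh x.pos y.lamp), x.pos + y.pos⟩⟩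
instance : One (W k) := ⟨⟨0, 0, 0⟩⟩
noncomputable instance : Inv (W k) := ⟨fun x =>
  ⟨- sh (-x.pos) x.lamp, beta k x.lamp x.lamp - x.cen, -x.pos⟩⟩

@[simp] theorem mul_lamp (x y : W k) : (x * y).lamp = x.lamp + sh x.pos y.lamp := rfl
@[simp] theorem mul_cen (x y : W k) :
    (x * y).cen = x.cen + y.cen + beta k x.lamp (sh x.pos y.lamp) := rfl
@[simp] theorem mul_pos (x y : W k) : (x * y).pos = x.pos + y.pos := rfl
@[simp] theorem one_lamp : (1 : W k).lamp = 0 := rfl
@[simp] theorem one_cen : (1 : W k).cen = 0 := rfl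
@[simp] theorem one_pos : (1 : W k).pos = 0 := rfl
@[simp] theorem inv_lamp (x : W k) : (x⁻¹).lamp = - sh (-x.pos) x.lamp := rfl
@[simp] theorem inv_cen (x : W k) : (x⁻¹).cen = beta k x.lamp x.lamp - x.cen := rfl
@[simp] theorem inv_pos (x : W k) : (x⁻¹).pos = -x.pos := rfl

noncomputable instance : Group (W k) where
  mul_assoc x y z := by
    ext1
    · simp [sh_sh, add_assoc]
    · simp only [mul_cen, mul_lamp, mul_pos, map_add, sh_sh, beta_add_left, beta_add_right]
      have := beta_sh k x.pos y.lamp (sh y.pos z.lamp)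
      rw [sh_sh] at this
      rw [this]
      ring
    · simp [add_assoc]
  one_mul x := by
    ext1
    · simp [sh_zero]
    · simp [beta_zero_left]
    · simp
  mul_one x := by
    ext1
    · simp
    · simp [beta_zero_right]
    · simp
  inv_mul_cancel x := by
    ext1
    · simp
    · simp only [mul_cen, inv_cen, inv_lamp, inv_pos, one_cen, beta_neg_left, beta_sh]
      ring
    · simp

end W

open W

variable {k : ℕ → ZMod 2}

/-- The element `t`. -/
def tt (k : ℕ → ZMod 2) : W k := ⟨0, 0, 1⟩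
/-- The element `a t`. -/
noncomputable def at' (k : ℕ → ZMod 2) : W k := ⟨Finsupp.single 0 1, 0, 1⟩

theorem tt_inv : (tt k)⁻¹ = ⟨0, 0, -1⟩ := by
  ext1 <;> simp [tt, beta_zero_left]

theorem at_inv : (at' k)⁻¹ = ⟨Finsupp.single (-1) 1, 0, -1⟩ := by
  ext1
  · simp only [inv_lamp, at']
    ext i
    simp only [Finsupp.coe_neg, Pi.neg_apply, sh_apply, Finsupp.single_apply]
    by_cases h : i = -1
    · subst h; simp
    · rw [if_neg (by omega), if_neg (by omega)]; simp
  · simp [at', beta]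
  · simp [at']

/-- The group: the subgroup generated by `t` and `a t`. -/
abbrev G (k : ℕ → ZMod 2) : Type := ↥(Subgroup.closure {tt k, at' k})

/-- `t` as an element of the group. -/
def gt (k : ℕ → ZMod 2) : G k := ⟨tt k, Subgroup.subset_closure (by simp)⟩
/-- `a t` as an element of the group. -/
noncomputable def ga (k : ℕ → ZMod 2) : G k := ⟨at' k, Subgroup.subset_closure (by simp)⟩

open Classical in
/-- The symmetric generating set `{t, t⁻¹, a t, (a t)⁻¹}`. -/
noncomputable def S (k : ℕ → ZMod 2) : Finset (G k) := {gt k, (gt k)⁻¹, ga k, (ga k)⁻¹}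

theorem S_nonempty (k : ℕ → ZMod 2) : (S k).Nonempty := ⟨gt k, by simp [S]⟩

/-- The displacement coded by two fair bits: `-1, 0, 0, 1`. -/
def zz (p : Bool × Bool) : ℤ := (if p.1 then 1 else 0) + (if p.2 then 1 else 0) - 1

/-- The eight equally likely steps. -/
noncomputable def step (k : ℕ → ZMod 2) : (Bool × Bool) × Bool → G k
  | ((true, true), true) => ga k
  | ((true, true), false) => gt k
  | ((false, false), true) => (ga k)⁻¹
  | ((false, false), false) => (gt k)⁻¹
  | _ => 1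

/-- The lamp part of a step. -/
noncomputable def sl : (Bool × Bool) × Bool → V
  | ((true, true), true) => Finsupp.single 0 1
  | ((false, false), true) => Finsupp.single (-1) 1
  | _ => 0

theorem step_coe (q : (Bool × Bool) × Bool) : (step k q : W k) = ⟨sl q, 0, zz q.1⟩ := by
  obtain ⟨⟨a, b⟩, c⟩ := q
  have h1 : ((gt k : G k) : W k) = ⟨0, 0, 1⟩ := rfl
  have h2 : ((ga k : G k) : W k) = ⟨Finsupp.single 0 1, 0, 1⟩ := rfl
  have h3 : (((gt k)⁻¹ : G k) : W k) = ⟨0, 0, -1⟩ := tt_inv
  have h4 : (((ga k)⁻¹ : G k) : W k) = ⟨Finsupp.single (-1) 1, 0, -1⟩ := at_inv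
  cases a <;> cases b <;> cases c <;>
    first
    | (simp [step, sl, zz, h1, h2, h3, h4]; done)
    | (simp [step, sl, zz]; rfl)

theorem single_ne : (Finsupp.single 0 1 : V) ≠ 0 := by
  rw [Ne, Finsupp.single_eq_zero]; decide

theorem single_ne' : (Finsupp.single (-1) 1 : V) ≠ 0 := by
  rw [Ne, Finsupp.single_eq_zero]; decide

theorem lazy_eq : lazyStep (S k) (S_nonempty k) =
    (PMF.uniformOfFintype ((Bool × Bool) × Bool)).map (step k) := by
  classical
  have c1 : ((gt k : G k) : W k) = ⟨0, 0, 1⟩ := rfl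
  have c2 : ((ga k : G k) : W k) = ⟨Finsupp.single 0 1, 0, 1⟩ := rfl
  have c3 : (((gt k)⁻¹ : G k) : W k) = ⟨0, 0, -1⟩ := tt_inv
  have c4 : (((ga k)⁻¹ : G k) : W k) = ⟨Finsupp.single (-1) 1, 0, -1⟩ := at_inv
  have c5 : ((1 : G k) : W k) = ⟨0, 0, 0⟩ := rfl
  have hne : ∀ x y : G k, (x : W k) ≠ (y : W k) → x ≠ y := fun x y h h' => h (by rw [h'])
  have n12 : gt k ≠ (gt k)⁻¹ := hne _ _ (by rw [c1, c3]; simp)
  have n13 : gt k ≠ ga k := hne _ _ (by rw [c1, c2]; simpa using single_ne.symm)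
  have n14 : gt k ≠ (ga k)⁻¹ := hne _ _ (by rw [c1, c4]; simp)
  have n15 : gt k ≠ 1 := hne _ _ (by rw [c1, c5]; simp)
  have n23 : (gt k)⁻¹ ≠ ga k := hne _ _ (by rw [c2, c3]; simp)
  have n24 : (gt k)⁻¹ ≠ (ga k)⁻¹ := hne _ _ (by rw [c3, c4]; simpa using single_ne'.symm)
  have n25 : (gt k)⁻¹ ≠ 1 := hne _ _ (by rw [c3, c5]; simp)
  have n34 : ga k ≠ (ga k)⁻¹ := hne _ _ (by rw [c2, c4]; simp)
  have n35 : ga k ≠ 1 := hne _ _ (by rw [c2, c5]; simp)
  have n45 : (ga k)⁻¹ ≠ 1 := hne _ _ (by rw [c4, c5]; simp)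
  have hcard : (S k).card = 4 := by
    unfold S
    rw [Finset.card_insert_of_notMem, Finset.card_insert_of_notMem,
      Finset.card_insert_of_notMem, Finset.card_singleton]
    · simpa using n34
    · simp [n23, n13]
    · simp [n12, n13, n14]
  have e8 : (2 : ℝ≥0∞)⁻¹ * 4⁻¹ = 8⁻¹ := by
    rw [← ENNReal.mul_inv (by simp) (by simp)]
    norm_num
  have e8' : (8 : ℝ≥0∞)⁻¹ + 8⁻¹ + (8⁻¹ + 8⁻¹) = 2⁻¹ := by
    have h8 : (8 : ℝ≥0∞) = 2 * 2 * 2 := by norm_num
    have h2 : (2 : ℝ≥0∞)⁻¹ + 2⁻¹ = 1 := ENNReal.inv_two_add_inv_two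
    have h9 : (8 : ℝ≥0∞)⁻¹ = 2⁻¹ * 2⁻¹ * 2⁻¹ := by
      rw [h8, ENNReal.mul_inv (by simp) (by simp), ENNReal.mul_inv (by simp) (by simp)]
    rw [h9, ← mul_add, h2, mul_one, ← mul_add, h2, mul_one]
  ext g
  rw [lazyStep, PMF.bind_apply, PMF.map_apply, tsum_fintype, tsum_fintype,
    Fintype.sum_prod_type]
  simp only [Fintype.sum_prod_type, Fintype.sum_bool, PMF.uniformOfFintype_apply,
    Fintype.card_bool, Fintype.card_prod, if_true, Bool.false_eq_true, if_false,
    PMF.pure_apply, PMF.uniformOfFinset_apply, hcard, step]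
  norm_num
  by_cases h1 : g = gt k
  · subst h1
    simp [S, n12, n13, n14, n15, e8]
  by_cases h2 : g = (gt k)⁻¹
  · subst h2
    simp [S, n12.symm, n23, n24, n25, e8]
  by_cases h3 : g = ga k
  · subst h3
    simp [S, n13.symm, n23.symm, n34, n35, e8]
  by_cases h4 : g = (ga k)⁻¹
  · subst h4
    simp [S, n14.symm, n24.symm, n34.symm, n45, e8]
  by_cases h5 : g = 1
  · subst h5
    simp [S, n15.symm, n25.symm, n35.symm, n45.symm]
    rw [← e8']
  · simp [S, h1, h2, h3, h4, h5]

/-! ### The word -/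

/-- The commutator `a b a⁻¹ b⁻¹`. -/
def comm {M : Type} [Group M] (a b : M) : M := a * b * a⁻¹ * b⁻¹

/-- The word `[[x, y], xʳ [x, y] x⁻ʳ]` in the free group on `x` and `y`. -/
def word (r : ℕ) : FreeGroup (Fin 2) :=
  comm (comm (FreeGroup.of 0) (FreeGroup.of 1))
    (FreeGroup.of 0 ^ r * comm (FreeGroup.of 0) (FreeGroup.of 1) * (FreeGroup.of 0 ^ r)⁻¹)

/-- The same word evaluated at two elements. -/
def wv {M : Type} [Group M] (r : ℕ) (x y : M) : M :=
  comm (comm x y) (x ^ r * comm x y * (x ^ r)⁻¹)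

theorem lift_word {M : Type} [Group M] (r : ℕ) (x y : M) :
    FreeGroup.lift ![x, y] (word r) = wv r x y := by
  simp [word, wv, comm]

theorem wv_coe (r : ℕ) (x y : G k) : ((wv r x y : G k) : W k) = wv r (x : W k) (y : W k) := by
  simp [wv, comm]

/-- The lamp part of `[x, y]`. -/
noncomputable def hh (f g : V) (a b : ℤ) : V := f + sh a g - sh b f - g

theorem comm_lamp (x y : W k) : (comm x y).lamp = hh x.lamp y.lamp x.pos y.pos := by
  simp only [comm, mul_lamp, inv_lamp, mul_pos, inv_pos, hh, map_neg, sh_sh]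
  have h1 : x.pos + y.pos + -x.pos = y.pos := by ring
  have h2 : y.pos + -y.pos = 0 := by ring
  rw [h1, h2, sh_zero]
  abel

theorem comm_pos (x y : W k) : (comm x y).pos = 0 := by
  simp [comm]

/-- The alternating form attached to `beta`. -/
noncomputable def BB (k : ℕ → ZMod 2) (f g : V) : ZMod 2 := beta k f g - beta k g f

theorem comm_eq_one_iff (u v : W k) (hu : u.pos = 0) (hv : v.pos = 0) :
    comm u v = 1 ↔ BB k u.lamp v.lamp = 0 := by
  have hc : (comm u v).cen = BB k u.lamp v.lamp := by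
    simp only [comm, mul_cen, mul_lamp, mul_pos, inv_cen, inv_lamp, inv_pos, hu, hv, neg_zero,
      add_zero, sh_zero, BB, beta_add_left, beta_neg_right, beta_neg_left]
    ring
  have hl : (comm u v).lamp = 0 := by
    simp only [comm, mul_lamp, mul_pos, inv_lamp, inv_pos, hu, hv, neg_zero,
      add_zero, sh_zero]
    abel
  constructor
  · intro h
    rw [← hc, h]; rfl
  · intro h
    ext1
    · exact hl
    · rw [hc, h]; rfl
    · simp [comm]

theorem pow_pos' (x : W k) (r : ℕ) : (x ^ r).pos = r * x.pos := by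
  induction r with
  | zero => simp
  | succ r ih => rw [pow_succ, mul_pos, ih]; push_cast; ring

theorem wv_eq_one_iff (r : ℕ) (x y : W k) : wv r x y = 1 ↔
    BB k (hh x.lamp y.lamp x.pos y.pos)
      (sh (r * x.pos) (hh x.lamp y.lamp x.pos y.pos)) = 0 := by
  have hp : (x ^ r * comm x y * (x ^ r)⁻¹).pos = 0 := by simp [comm_pos]
  have hl : (x ^ r * comm x y * (x ^ r)⁻¹).lamp =
      sh (r * x.pos) (hh x.lamp y.lamp x.pos y.pos) := by
    rw [mul_lamp, mul_lamp, comm_lamp, inv_lamp, mul_pos, comm_pos, add_zero, map_neg, sh_sh,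
      add_neg_cancel, sh_zero, pow_pos']
    abel
  rw [wv, comm_eq_one_iff _ _ (comm_pos x y) hp, comm_lamp, hl]

/-! ### The form -/

theorem BB_comm (k : ℕ → ZMod 2) (f g : V) : BB k f g = BB k g f := by
  have h : ∀ a b : ZMod 2, a - b = b - a := by decide
  exact h _ _

theorem BB_sh (k : ℕ → ZMod 2) (f : V) (s : ℤ) : BB k f (sh (-s) f) = BB k f (sh s f) := by
  have h1 : BB k f (sh (-s) f) = BB k (sh s f) (sh s (sh (-s) f)) := by
    unfold BB
    rw [beta_sh, beta_sh]
  rw [h1, sh_sh, add_neg_cancel, sh_zero, BB_comm]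

theorem BB_add_k (k k' : ℕ → ZMod 2) (f g : V) : BB (k + k') f g = BB k f g + BB k' f g := by
  unfold BB
  rw [beta_add_k, beta_add_k]
  ring

/-- The form on `f` and a far shift of `f`. -/
theorem BB_formula (k : ℕ → ZMod 2) (f : V) (s D : ℤ)
    (hf : ∀ i j, f i ≠ 0 → f j ≠ 0 → i - j ≤ D) (hs : D < s) :
    BB k f (sh s f) = f.sum fun j a => f.sum fun i b => k (s + j - i).toNat * a * b := by
  have h1 : beta k f (sh s f) = 0 := by
    unfold beta
    apply Finset.sum_eq_zero
    intro i hi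
    apply Finset.sum_eq_zero
    intro j hj
    rw [Finsupp.mem_support_iff] at hi hj
    rw [sh_apply] at hj
    have := hf i _ hi hj
    beta_reduce
    rw [if_neg (by omega)]
  have h2 : beta k (sh s f) f =
      f.sum fun j a => f.sum fun i b => k (s + j - i).toNat * a * b := by
    unfold beta sh
    change (Finsupp.mapDomain (fun i => s + i) f).sum _ = _
    rw [Finsupp.sum_mapDomain_index_inj (add_right_injective s)]
    apply Finsupp.sum_congr
    intro j hj
    apply Finsupp.sum_congr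
    intro i hi
    rw [Finsupp.mem_support_iff] at hi hj
    have := hf i _ hi hj
    rw [if_pos (by omega)]
  have h3 : ∀ a : ZMod 2, 0 - a = a := by decide
  unfold BB
  rw [h1, h2, h3]

/-- If `k` vanishes on all relevant distances, so does the form. -/
theorem BB_zero (k : ℕ → ZMod 2) (f : V) (s D : ℤ)
    (hf : ∀ i j, f i ≠ 0 → f j ≠ 0 → i - j ≤ D) (hs : D < s)
    (hk : ∀ m : ℕ, s - D ≤ m → m ≤ s + D → k m = 0) : BB k f (sh s f) = 0 := by
  rw [BB_formula k f s D hf hs]
  apply Finset.sum_eq_zero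
  intro j hj
  apply Finset.sum_eq_zero
  intro i hi
  rw [Finsupp.mem_support_iff] at hi hj
  have h1 := hf i _ hi hj
  have h2 := hf j _ hj hi
  beta_reduce
  rw [hk, zero_mul, zero_mul] <;> omega

/-- Changing `k` at the extreme distance changes the form. -/
theorem BB_flip (f : V) (hf0 : f ≠ 0) (s D : ℤ)
    (hf : ∀ i j, f i ≠ 0 → f j ≠ 0 → i - j ≤ D) (hs : D < s) :
    ∃ m : ℕ, s ≤ m ∧ m ≤ s + D ∧ BB (Pi.single m 1) f (sh s f) = 1 := by
  have hne : f.support.Nonempty := Finsupp.support_nonempty_iff.2 hf0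
  set i1 := f.support.max' hne
  set i0 := f.support.min' hne
  have hi1 : f i1 ≠ 0 := Finsupp.mem_support_iff.1 (f.support.max'_mem hne)
  have hi0 : f i0 ≠ 0 := Finsupp.mem_support_iff.1 (f.support.min'_mem hne)
  have hmax : ∀ j, f j ≠ 0 → j ≤ i1 := fun j hj =>
    f.support.le_max' j (Finsupp.mem_support_iff.2 hj)
  have hmin : ∀ j, f j ≠ 0 → i0 ≤ j := fun j hj =>
    f.support.min'_le j (Finsupp.mem_support_iff.2 hj)
  have h01 : i0 ≤ i1 := hmin _ hi1
  have hD := hf _ _ hi1 hi0
  have one_of_ne : ∀ a : ZMod 2, a ≠ 0 → a = 1 := by decide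
  refine ⟨(s + i1 - i0).toNat, by omega, by omega, ?_⟩
  rw [BB_formula _ f s D hf hs]
  unfold Finsupp.sum
  beta_reduce
  rw [Finset.sum_eq_single i1, Finset.sum_eq_single i0]
  · rw [Pi.single_eq_same, one_of_ne _ hi1, one_of_ne _ hi0]; rfl
  · intro i hi hne'
    rw [Finsupp.mem_support_iff] at hi
    have h1 := hmin i hi
    have h2 := hf _ _ hi hi1
    rw [Pi.single_eq_of_ne, zero_mul, zero_mul]
    omega
  · intro h
    exact absurd (Finsupp.mem_support_iff.2 hi0) h
  · intro j hj hne'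
    apply Finset.sum_eq_zero
    intro i hi
    rw [Finsupp.mem_support_iff] at hi hj
    have h1 := hmin i hi
    have h2 := hmax j hj
    have h3 := hf _ _ hi hj
    rw [Pi.single_eq_of_ne, zero_mul, zero_mul]
    omega
  · intro h
    exact absurd (Finsupp.mem_support_iff.2 hi1) h

/-- Replace the values of `K` on `(C, H)` by those of `T`. -/
def KK (K : ℕ → ZMod 2) (C H : ℕ) (T : Fin H → ZMod 2) : ℕ → ZMod 2 := fun m =>
  if h : C < m ∧ m < H then T ⟨m, h.2⟩ else K m

/-- For half of all `T` the form vanishes. -/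
theorem average (K : ℕ → ZMod 2) (C H : ℕ) (f : V) (hf0 : f ≠ 0) (s D : ℤ)
    (hf : ∀ i j, f i ≠ 0 → f j ≠ 0 → i - j ≤ D) (hs : D < s) (hC : C < s) (hH : s + D < H) :
    ∑ T : Fin H → ZMod 2, ind (BB (KK K C H T) f (sh s f) = 0) = 2 ^ H / 2 := by
  obtain ⟨m, hm1, hm2, hm3⟩ := BB_flip f hf0 s D hf hs
  have hmH : m < H := by omega
  have hmC : C < m := by omega
  set δ : Fin H → ZMod 2 := Pi.single ⟨m, hmH⟩ 1 with hδ
  have hKK : ∀ T, KK K C H (T + δ) = KK K C H T + Pi.single m 1 := by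
    intro T
    funext i
    unfold KK
    simp only [Pi.add_apply]
    by_cases h : C < i ∧ i < H
    · rw [dif_pos h, dif_pos h]
      congr 1
      by_cases him : i = m
      · subst him
        rw [Pi.single_eq_same, hδ, Pi.single_eq_same]
      · rw [Pi.single_eq_of_ne him, hδ, Pi.single_eq_of_ne]
        intro h2
        exact him (congrArg Fin.val h2)
    · rw [dif_neg h, dif_neg h, Pi.single_eq_of_ne, add_zero]
      rintro rfl
      exact h ⟨hmC, hmH⟩
  have h1 : ∑ T : Fin H → ZMod 2, ind (BB (KK K C H T) f (sh s f) = 0) =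
      ∑ T : Fin H → ZMod 2, ind (BB (KK K C H (T + δ)) f (sh s f) = 0) :=
    (Fintype.sum_equiv (Equiv.addRight δ) _ _ (fun T => rfl)).symm
  have h2 : ∀ T, ind (BB (KK K C H T) f (sh s f) = 0) +
      ind (BB (KK K C H (T + δ)) f (sh s f) = 0) = 1 := by
    intro T
    rw [hKK, BB_add_k, hm3]
    have h3 : ∀ a : ZMod 2, (a = 0 ∧ a + 1 ≠ 0) ∨ (a ≠ 0 ∧ a + 1 = 0) := by decide
    rcases h3 (BB (KK K C H T) f (sh s f)) with ⟨h4, h5⟩ | ⟨h4, h5⟩
    · unfold ind; rw [if_pos h4, if_neg h5]; norm_num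
    · unfold ind; rw [if_neg h4, if_pos h5]; norm_num
  have h3 : ∑ T : Fin H → ZMod 2, (ind (BB (KK K C H T) f (sh s f) = 0) +
      ind (BB (KK K C H (T + δ)) f (sh s f) = 0)) = 2 ^ H := by
    simp only [h2]
    simp [ZMod.card]
  rw [Finset.sum_add_distrib, ← h1] at h3
  linarith

/-! ### Paths and lamps -/

/-- The end point of a path. -/
def ZZ {n : ℕ} (p : Fin n → Bool × Bool) : ℤ := ∑ i, zz (p i)

open Polynomial in
theorem count_ZZ (n : ℕ) (j : ℤ) :
    ∑ p : Fin n → Bool × Bool, ind (ZZ p = j) ≤ (n.centralBinom : ℝ) := by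
  classical
  set c : Bool × Bool → ℕ := fun q => (if q.1 then 1 else 0) + (if q.2 then 1 else 0) with hc
  have hz : ∀ q, zz q = (c q : ℤ) - 1 := by
    rintro ⟨a, b⟩
    cases a <;> cases b <;> simp [zz, hc]
  have hZ : ∀ p : Fin n → Bool × Bool, ZZ p = ((∑ i, c (p i) : ℕ) : ℤ) - n := by
    intro p
    simp only [ZZ, hz, Finset.sum_sub_distrib]
    simp
  have hpoly : ∀ k : ℕ, ∑ p : Fin n → Bool × Bool, ind (∑ i, c (p i) = k) =
      ((2 * n).choose k : ℝ) := by
    intro k
    have h1 : ((1 + X : ℝ[X]) ^ (2 * n)) = ∑ p : Fin n → Bool × Bool, X ^ (∑ i, c (p i)) := by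
      have h2 : (1 + X : ℝ[X]) ^ 2 = ∑ q : Bool × Bool, X ^ (c q) := by
        rw [Fintype.sum_prod_type]
        simp [hc]
        ring
      rw [pow_mul, h2, Fintype.sum_pow]
      apply Finset.sum_congr rfl
      intro p _
      rw [Finset.prod_pow_eq_pow_sum]
    have h3 := congrArg (fun f : ℝ[X] => f.coeff k) h1
    simp only [coeff_one_add_X_pow, finsetSum_coeff, coeff_X_pow] at h3
    rw [h3]
    apply Finset.sum_congr rfl
    intro p _
    unfold ind
    by_cases h : ∑ i, c (p i) = k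
    · rw [if_pos h, if_pos h.symm]
    · rw [if_neg h, if_neg (fun h' => h h'.symm)]
  rcases lt_or_ge (j + n) 0 with hj | hj
  · have : ∑ p : Fin n → Bool × Bool, ind (ZZ p = j) = 0 := by
      apply Finset.sum_eq_zero
      intro p _
      unfold ind
      rw [if_neg]
      intro h
      rw [hZ] at h
      have : (0 : ℤ) ≤ ((∑ i, c (p i) : ℕ) : ℤ) := by positivity
      linarith
    rw [this]
    positivity
  · obtain ⟨k, hk⟩ := Int.eq_ofNat_of_zero_le hj
    calc ∑ p : Fin n → Bool × Bool, ind (ZZ p = j)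
        ≤ ∑ p : Fin n → Bool × Bool, ind (∑ i, c (p i) = k) := by
          apply Finset.sum_le_sum
          intro p _
          apply ind_mono
          intro h
          rw [hZ] at h
          have : ((∑ i, c (p i) : ℕ) : ℤ) = k := by rw [← hk]; linarith
          exact_mod_cast this
      _ = ((2 * n).choose k : ℝ) := hpoly k
      _ ≤ (n.centralBinom : ℝ) := by exact_mod_cast Nat.choose_le_centralBinom k n

theorem centralBinom_bound (n : ℕ) :
    (n.centralBinom : ℝ) ^ 2 * (2 * n + 1) ≤ (4 ^ n) ^ 2 := by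
  induction n with
  | zero => simp
  | succ n ih =>
    have h := Nat.succ_mul_centralBinom_succ n
    have h' : ((n : ℝ) + 1) * ((n + 1).centralBinom : ℝ) =
        2 * (2 * n + 1) * (n.centralBinom : ℝ) := by exact_mod_cast h
    have h2 : ((n : ℝ) + 1) ^ 2 * (((n + 1).centralBinom : ℝ) ^ 2 * (2 * ((n + 1 : ℕ) : ℝ) + 1)) ≤
        ((n : ℝ) + 1) ^ 2 * (4 ^ (n + 1)) ^ 2 := by
      calc ((n : ℝ) + 1) ^ 2 * (((n + 1).centralBinom : ℝ) ^ 2 * (2 * ((n + 1 : ℕ) : ℝ) + 1))
          = (((n : ℝ) + 1) * ((n + 1).centralBinom : ℝ)) ^ 2 * (2 * n + 3) := by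
            push_cast; ring
        _ = 4 * (2 * n + 1) * (2 * n + 3) * ((n.centralBinom : ℝ) ^ 2 * (2 * n + 1)) := by
            rw [h']; ring
        _ ≤ 4 * (2 * n + 1) * (2 * n + 3) * (4 ^ n) ^ 2 := by gcongr
        _ ≤ 4 * (2 * n + 2) ^ 2 * (4 ^ n) ^ 2 := by
            have : (4 : ℝ) * (2 * n + 1) * (2 * n + 3) ≤ 4 * (2 * n + 2) ^ 2 := by nlinarith
            gcongr
        _ = ((n : ℝ) + 1) ^ 2 * (4 ^ (n + 1)) ^ 2 := by ring
    exact le_of_mul_le_mul_left h2 (by positivity)


theorem ZZ_cons {n : ℕ} (p0 : Bool × Bool) (p : Fin n → Bool × Bool) :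
    ZZ (Fin.cons p0 p : Fin (n + 1) → Bool × Bool) = zz p0 + ZZ p := by
  simp [ZZ, Fin.sum_univ_succ]

/-- The steps in the group with `k = 0`; lamps and positions do not depend on `k`. -/
noncomputable def eW (q : (Bool × Bool) × Bool) : W 0 := ⟨sl q, 0, zz q.1⟩

/-- The lamps after following the path `p` with lamp choices `c`. -/
noncomputable def LL {n : ℕ} (p : Fin n → Bool × Bool) (c : Fin n → Bool) : V :=
  (ev eW fun i => (p i, c i)).lamp

theorem pair_cons {n : ℕ} (p0 : Bool × Bool) (p : Fin n → Bool × Bool) (c0 : Bool)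
    (c : Fin n → Bool) : (fun i => ((Fin.cons p0 p : Fin (n + 1) → Bool × Bool) i,
      (Fin.cons c0 c : Fin (n + 1) → Bool) i)) =
      (Fin.cons (p0, c0) (fun i => (p i, c i)) : Fin (n + 1) → (Bool × Bool) × Bool) := by
  funext i
  refine Fin.cases ?_ (fun j => ?_) i
  · rfl
  · rfl

theorem LL_cons {n : ℕ} (p0 : Bool × Bool) (p : Fin n → Bool × Bool) (c0 : Bool)
    (c : Fin n → Bool) : LL (Fin.cons p0 p : Fin (n + 1) → Bool × Bool)
      (Fin.cons c0 c : Fin (n + 1) → Bool) = sl (p0, c0) + sh (zz p0) (LL p c) := by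
  rw [LL, pair_cons, ev_cons]
  rfl

theorem LL_zero (p : Fin 0 → Bool × Bool) (c : Fin 0 → Bool) : LL p c = 0 := by
  rw [LL, ev_zero]; rfl

theorem ev_k {n : ℕ} (k : ℕ → ZMod 2) (p : Fin n → Bool × Bool) (c : Fin n → Bool) :
    ((ev (step k) fun i => (p i, c i) : G k) : W k).lamp = LL p c ∧
      ((ev (step k) fun i => (p i, c i) : G k) : W k).pos = ZZ p := by
  induction n with
  | zero => simp [ev_zero, LL_zero, ZZ]
  | succ n ih =>
    rw [← Fin.cons_self_tail p, ← Fin.cons_self_tail c, pair_cons, ev_cons, LL_cons, ZZ_cons]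
    have h := ih (Fin.tail p) (Fin.tail c)
    have h2 : ((step k (p 0, c 0) * ev (step k) (fun i => (Fin.tail p i, Fin.tail c i)) : G k)
        : W k) = (⟨sl (p 0, c 0), 0, zz (p 0)⟩ : W k) *
        ((ev (step k) (fun i => (Fin.tail p i, Fin.tail c i)) : G k) : W k) := by
      rw [← step_coe]
      rfl
    rw [h2, mul_lamp, mul_pos, h.1, h.2]
    exact ⟨rfl, rfl⟩

theorem sum_split {A B : Type} [Fintype A] [Fintype B] {n : ℕ} (F : (Fin n → A × B) → ℝ) :
    ∑ om, F om = ∑ p : Fin n → A, ∑ l : Fin n → B, F (fun i => (p i, l i)) := by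
  rw [← Fintype.sum_prod_type']
  exact Fintype.sum_equiv (Equiv.arrowProdEquivProdArrow (Fin n) (fun _ => A) (fun _ => B)) _ _
    (fun om => rfl)

/-- The path started at `z` stays in `(-Λ, Λ)`. -/
def inB (Λ : ℤ) : List (Bool × Bool) → ℤ → Prop
  | [], z => |z| < Λ
  | p :: l, z => |z| < Λ ∧ inB Λ l (z + zz p)

theorem inB_pos (Λ : ℤ) {n : ℕ} (p : Fin n → Bool × Bool) (z : ℤ)
    (h : inB Λ (List.ofFn p) z) : |z + ZZ p| < Λ := by
  induction n generalizing z with
  | zero => simpa [ZZ, inB] using h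
  | succ n ih =>
    rw [← Fin.cons_self_tail p, List.ofFn_cons] at h
    rw [← Fin.cons_self_tail p, ZZ_cons, ← add_assoc]
    exact ih _ _ h.2

theorem inB_lamp (Λ : ℤ) {n : ℕ} (p : Fin n → Bool × Bool) (c : Fin n → Bool) (z : ℤ)
    (h : inB Λ (List.ofFn p) z) (i : ℤ) (hi : LL p c i ≠ 0) : |i + z| ≤ Λ := by
  induction n generalizing z i with
  | zero => rw [LL_zero] at hi; exact absurd rfl hi
  | succ n ih =>
    rw [← Fin.cons_self_tail p, List.ofFn_cons] at h
    rw [← Fin.cons_self_tail p, ← Fin.cons_self_tail c, LL_cons, Finsupp.add_apply,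
      sh_apply] at hi
    by_cases h1 : LL (Fin.tail p) (Fin.tail c) (i - zz (p 0)) = 0
    · rw [h1, add_zero] at hi
      have h2 := h.1
      rw [abs_lt] at h2
      rw [abs_le]
      have h3 : i = 0 ∨ i = -1 := by
        by_contra hcon
        push Not at hcon
        apply hi
        obtain ⟨a, b⟩ := p 0
        rcases c 0 <;> rcases a <;> rcases b <;> simp [sl, Finsupp.single_apply]
        · exact fun h => hcon.2 h.symm
        · exact fun h => hcon.1 h.symm
      rcases h3 with rfl | rfl <;> constructor <;> linarith [h2.1, h2.2]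
    · have := ih (Fin.tail p) (Fin.tail c) (z + zz (p 0)) h.2 _ h1
      rwa [show i - zz (p 0) + (z + zz (p 0)) = i + z by ring] at this

theorem sum_zz (F : ℤ → ℝ) : ∑ p : Bool × Bool, F (zz p) = F 1 + 2 * F 0 + F (-1) := by
  rw [Fintype.sum_prod_type]
  simp [zz]
  ring

/-- Kolmogorov's maximal inequality for our walk. -/
theorem maximal (Λ : ℤ) (hΛ : 0 < Λ) (n : ℕ) (z : ℤ) :
    ∑ p : Fin n → Bool × Bool, ind (¬ inB Λ (List.ofFn p) z) ≤
      ((z : ℝ) ^ 2 + n / 2) / (Λ : ℝ) ^ 2 * 4 ^ n := by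
  have hΛ' : (0 : ℝ) < (Λ : ℝ) ^ 2 := by
    have : (0 : ℝ) < Λ := by exact_mod_cast hΛ
    positivity
  have hbig : ∀ (n : ℕ) (z : ℤ), ¬ |z| < Λ → (1 : ℝ) ≤ ((z : ℝ) ^ 2 + n / 2) / (Λ : ℝ) ^ 2 := by
    intro n z hz
    rw [le_div_iff₀ hΛ', one_mul]
    push Not at hz
    have h1 : (Λ : ℝ) ≤ |(z : ℝ)| := by exact_mod_cast hz
    have h2 : (Λ : ℝ) ^ 2 ≤ |(z : ℝ)| ^ 2 := by
      have h0 : (0 : ℝ) < Λ := by exact_mod_cast hΛ
      gcongr
    rw [sq_abs] at h2
    have h3 : (0 : ℝ) ≤ n / 2 := by positivity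
    linarith
  induction n generalizing z with
  | zero =>
    simp only [Finset.univ_unique, Finset.sum_singleton, List.ofFn_zero, inB, pow_zero, mul_one]
    by_cases hz : |z| < Λ
    · have : ind (¬ |z| < Λ) = 0 := by unfold ind; rw [if_neg (by simpa using hz)]
      rw [this]
      positivity
    · rw [ind_true hz]
      exact hbig 0 z hz
  | succ n ih =>
    by_cases hz : |z| < Λ
    · rw [sum_cons]
      have h1 : ∀ (k : Bool × Bool) (p : Fin n → Bool × Bool),
          ind (¬ inB Λ (List.ofFn (Fin.cons k p : Fin (n + 1) → Bool × Bool)) z) =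
            ind (¬ inB Λ (List.ofFn p) (z + zz k)) := by
        intro k p
        rw [List.ofFn_cons]
        have : inB Λ (k :: List.ofFn p) z ↔ inB Λ (List.ofFn p) (z + zz k) :=
          ⟨fun h => h.2, fun h => ⟨hz, h⟩⟩
        simp only [this]
      simp only [h1]
      have h2 : ∑ k : Bool × Bool, ∑ p : Fin n → Bool × Bool,
          ind (¬ inB Λ (List.ofFn p) (z + zz k)) ≤
          ∑ k : Bool × Bool, (((z + zz k : ℤ) : ℝ) ^ 2 + n / 2) / (Λ : ℝ) ^ 2 * 4 ^ n :=
        Finset.sum_le_sum fun k _ => ih (z + zz k)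
      refine h2.trans (le_of_eq ?_)
      rw [sum_zz (fun d => (((z + d : ℤ) : ℝ) ^ 2 + n / 2) / (Λ : ℝ) ^ 2 * 4 ^ n)]
      push_cast
      field_simp
      ring
    · calc ∑ p : Fin (n + 1) → Bool × Bool, ind (¬ inB Λ (List.ofFn p) z)
          ≤ ∑ _p : Fin (n + 1) → Bool × Bool, (1 : ℝ) :=
            Finset.sum_le_sum fun _ _ => ind_le_one _
        _ = 1 * 4 ^ (n + 1) := by simp
        _ ≤ _ := mul_le_mul_of_nonneg_right (hbig (n + 1) z hz) (by positivity)

/-- A given lamp configuration is produced by at most half of the lamp choices. -/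
theorem half_lamps {n : ℕ} (p : Fin n → Bool × Bool) (hp : ∃ i, zz (p i) ≠ 0) (g : V) :
    ∑ c : Fin n → Bool, ind (LL p c = g) ≤ 2 ^ n / 2 := by
  induction n generalizing g with
  | zero => obtain ⟨i, _⟩ := hp; exact i.elim0
  | succ n ih =>
    rw [sum_cons]
    obtain ⟨p0, p', rfl⟩ : ∃ (p0 : Bool × Bool) (p' : Fin n → Bool × Bool),
        p = (Fin.cons p0 p' : Fin (n + 1) → Bool × Bool) := ⟨p 0, Fin.tail p, by simp⟩
    simp only [LL_cons]
    by_cases h0 : zz p0 = 0
    · have hsl : ∀ c, sl (p0, c) = 0 := by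
        intro c
        obtain ⟨a, b⟩ := p0
        rcases c <;> rcases a <;> rcases b <;> simp [zz] at h0 <;> rfl
      have hp' : ∃ i, zz (p' i) ≠ 0 := by
        obtain ⟨i, hi⟩ := hp
        refine Fin.cases (fun hi => ?_) (fun j hi => ?_) i hi
        · exact absurd h0 hi
        · exact ⟨j, hi⟩
      simp only [hsl, zero_add, h0, sh_zero]
      have := ih p' hp' g
      rw [Fintype.sum_bool, pow_succ]
      linarith
    · have hne : sl (p0, true) ≠ sl (p0, false) := by
        obtain ⟨a, b⟩ := p0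
        rcases a <;> rcases b <;> simp [zz] at h0
        · exact single_ne'
        · exact single_ne
      rw [Fintype.sum_bool, ← Finset.sum_add_distrib]
      have h1 : ∀ c : Fin n → Bool, ind (sl (p0, true) + sh (zz p0) (LL p' c) = g) +
          ind (sl (p0, false) + sh (zz p0) (LL p' c) = g) ≤ 1 := by
        intro c
        by_cases h2 : sl (p0, true) + sh (zz p0) (LL p' c) = g
        · have h3 : ¬ sl (p0, false) + sh (zz p0) (LL p' c) = g := by
            intro h3
            exact hne (add_right_cancel (h2.trans h3.symm))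
          have : ind (sl (p0, false) + sh (zz p0) (LL p' c) = g) = 0 := by
            unfold ind; rw [if_neg h3]
          rw [this, add_zero]
          exact ind_le_one _
        · have : ind (sl (p0, true) + sh (zz p0) (LL p' c) = g) = 0 := by
            unfold ind; rw [if_neg h2]
          rw [this, zero_add]
          exact ind_le_one _
      calc _ ≤ ∑ _c : Fin n → Bool, (1 : ℝ) := Finset.sum_le_sum fun c _ => h1 c
        _ = 2 ^ (n + 1) / 2 := by
          rw [pow_succ]; simp

theorem sh_fix (a : ℤ) (ha : a ≠ 0) (u : V) (h : sh a u = u) : u = 0 := by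
  by_contra hne
  have hn : u.support.Nonempty := Finsupp.support_nonempty_iff.2 hne
  have key : ∀ i, u i ≠ 0 → u (i - a) ≠ 0 ∧ u (i + a) ≠ 0 := by
    intro i hi
    constructor
    · rw [← sh_apply, h]; exact hi
    · rw [← h, sh_apply, add_sub_cancel_right]; exact hi
  have hmax := Finsupp.mem_support_iff.1 (u.support.max'_mem hn)
  obtain ⟨h1, h2⟩ := key _ hmax
  have h3 := u.support.le_max' _ (Finsupp.mem_support_iff.2 h1)
  have h4 := u.support.le_max' _ (Finsupp.mem_support_iff.2 h2)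
  omega

/-- If both walks move, `[x, y]` has nontrivial lamps for at least half of the choices. -/
theorem half_hh {n : ℕ} (f : V) (a b : ℤ) (ha : a ≠ 0) (q : Fin n → Bool × Bool)
    (hq : ZZ q ≠ 0) : ∑ c : Fin n → Bool, ind (hh f (LL q c) a b = 0) ≤ 2 ^ n / 2 := by
  have hq' : ∃ i, zz (q i) ≠ 0 := by
    by_contra hcon
    push Not at hcon
    apply hq
    simp [ZZ, hcon]
  by_cases hex : ∃ g, hh f g a b = 0
  · obtain ⟨g0, hg0⟩ := hex
    have h1 : ∀ g, hh f g a b = 0 → g = g0 := by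
      intro g hg
      have h2 : sh a (g - g0) = g - g0 := by
        rw [map_sub]
        unfold hh at hg hg0
        have e1 : sh a g - g = -(f - sh b f) := by
          rw [eq_neg_iff_add_eq_zero, ← hg]; abel
        have e2 : sh a g0 - g0 = -(f - sh b f) := by
          rw [eq_neg_iff_add_eq_zero, ← hg0]; abel
        have e3 : sh a g - g = sh a g0 - g0 := e1.trans e2.symm
        have e4 : sh a g - sh a g0 - (g - g0) = (sh a g - g) - (sh a g0 - g0) := by abel
        rw [← sub_eq_zero, e4, e3, sub_self]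
      exact sub_eq_zero.1 (sh_fix a ha _ h2)
    refine le_trans ?_ (half_lamps q hq' g0)
    exact Finset.sum_le_sum fun c _ => ind_mono fun h => h1 _ h
  · have : ∀ c : Fin n → Bool, ind (hh f (LL q c) a b = 0) = 0 := by
      intro c
      unfold ind
      rw [if_neg fun h => hex ⟨_, h⟩]
    simp only [this, Finset.sum_const_zero]
    positivity

theorem BB_abs (k : ℕ → ZMod 2) (f : V) (s : ℤ) : BB k f (sh s f) = BB k f (sh |s| f) := by
  rcases abs_cases s with ⟨h, _⟩ | ⟨h, _⟩
  · rw [h]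
  · rw [h, BB_sh]

theorem BB_local (k k' : ℕ → ZMod 2) (f : V) (s D : ℤ)
    (hf : ∀ i j, f i ≠ 0 → f j ≠ 0 → i - j ≤ D) (hs : D < s)
    (hk : ∀ m : ℕ, m ≤ s + D → k m = k' m) : BB k f (sh s f) = BB k' f (sh s f) := by
  rw [BB_formula k f s D hf hs, BB_formula k' f s D hf hs]
  apply Finsupp.sum_congr
  intro j hj
  apply Finsupp.sum_congr
  intro i hi
  rw [Finsupp.mem_support_iff] at hi hj
  have h1 := hf i _ hi hj
  have h2 := hf j _ hj hi
  rw [hk]
  omega

/-- The good event: both walks end far away and stay in `(-Λ, Λ)`. -/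
def EE (Λ : ℤ) (q0 : ℕ) {n : ℕ} (p q : Fin n → Bool × Bool) : Prop :=
  ((q0 : ℤ) < |ZZ p| ∧ (q0 : ℤ) < |ZZ q|) ∧ inB Λ (List.ofFn p) 0 ∧ inB Λ (List.ofFn q) 0

theorem near_bound (q0 : ℕ) (hq0 : 1 ≤ q0) :
    ∑ p : Fin ((64 * q0) ^ 2) → Bool × Bool, ind (¬ (q0 : ℤ) < |ZZ p|) ≤
      1 / 30 * 4 ^ ((64 * q0) ^ 2) := by
  set n := (64 * q0) ^ 2 with hn
  have hq : (1 : ℝ) ≤ q0 := by exact_mod_cast hq0
  have h1 : ∀ p : Fin n → Bool × Bool, ind (¬ (q0 : ℤ) < |ZZ p|) ≤
      ∑ i ∈ Finset.Icc (-(q0 : ℤ)) q0, ind (ZZ p = i) := by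
    intro p
    by_cases h : ¬ (q0 : ℤ) < |ZZ p|
    · rw [ind_true h]
      have hmem : ZZ p ∈ Finset.Icc (-(q0 : ℤ)) q0 := by
        rw [Finset.mem_Icc]
        push Not at h
        exact abs_le.1 h
      calc (1 : ℝ) = ind (ZZ p = ZZ p) := (ind_true rfl).symm
        _ ≤ _ := Finset.single_le_sum (f := fun i => ind (ZZ p = i))
            (fun i _ => ind_nonneg _) hmem
    · have : ind (¬ (q0 : ℤ) < |ZZ p|) = 0 := by unfold ind; rw [if_neg h]
      rw [this]
      exact Finset.sum_nonneg fun _ _ => ind_nonneg _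
  have h2 : ∑ p : Fin n → Bool × Bool, ind (¬ (q0 : ℤ) < |ZZ p|) ≤
      (2 * q0 + 1) * (n.centralBinom : ℝ) := by
    calc ∑ p : Fin n → Bool × Bool, ind (¬ (q0 : ℤ) < |ZZ p|)
        ≤ ∑ p : Fin n → Bool × Bool, ∑ i ∈ Finset.Icc (-(q0 : ℤ)) q0, ind (ZZ p = i) :=
          Finset.sum_le_sum fun p _ => h1 p
      _ = ∑ i ∈ Finset.Icc (-(q0 : ℤ)) q0, ∑ p : Fin n → Bool × Bool, ind (ZZ p = i) :=
          Finset.sum_comm
      _ ≤ ∑ _i ∈ Finset.Icc (-(q0 : ℤ)) q0, (n.centralBinom : ℝ) :=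
          Finset.sum_le_sum fun i _ => count_ZZ n i
      _ = (2 * q0 + 1) * (n.centralBinom : ℝ) := by
          rw [Finset.sum_const, Int.card_Icc]
          have : ((q0 : ℤ) + 1 - -(q0 : ℤ)).toNat = 2 * q0 + 1 := by omega
          rw [this, nsmul_eq_mul]
          push_cast
          ring
  have h3 : (n.centralBinom : ℝ) * (90 * q0) ≤ 4 ^ n := by
    have h4 := centralBinom_bound n
    have h5 : ((n.centralBinom : ℝ) * (90 * q0)) ^ 2 ≤ (4 ^ n) ^ 2 := by
      refine le_trans ?_ h4
      have h6 : (90 * (q0 : ℝ)) ^ 2 ≤ 2 * n + 1 := by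
        rw [hn]; push_cast; nlinarith
      rw [mul_pow]
      exact mul_le_mul_of_nonneg_left h6 (by positivity)
    exact (pow_le_pow_iff_left₀ (by positivity) (by positivity) two_ne_zero).1 h5
  have h7 : (2 * (q0 : ℝ) + 1) * (n.centralBinom : ℝ) ≤
      1 / 30 * ((n.centralBinom : ℝ) * (90 * q0)) := by
    have : (0 : ℝ) ≤ n.centralBinom := by positivity
    nlinarith
  linarith

theorem EE_bound (q0 : ℕ) (hq0 : 1 ≤ q0) :
    ∑ p : Fin ((64 * q0) ^ 2) → Bool × Bool, ∑ q : Fin ((64 * q0) ^ 2) → Bool × Bool,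
      ind (¬ EE (512 * q0) q0 p q) ≤ (1 / 15 + 1 / 64) * 16 ^ ((64 * q0) ^ 2) := by
  have hnear := near_bound q0 hq0
  have hmax := maximal (512 * q0) (by positivity) ((64 * q0) ^ 2) 0
  set n := (64 * q0) ^ 2 with hn
  have hq : (1 : ℝ) ≤ q0 := by exact_mod_cast hq0
  have hmax' : ∑ p : Fin n → Bool × Bool, ind (¬ inB (512 * q0) (List.ofFn p) 0) ≤
      1 / 128 * 4 ^ n := by
    refine hmax.trans (le_of_eq ?_)
    rw [hn]
    push_cast
    field_simp
    norm_num
    ring
  have h1 : ∀ p q : Fin n → Bool × Bool, ind (¬ EE (512 * q0) q0 p q) ≤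
      ind (¬ (q0 : ℤ) < |ZZ p|) + ind (¬ (q0 : ℤ) < |ZZ q|) +
      ind (¬ inB (512 * q0) (List.ofFn p) 0) + ind (¬ inB (512 * q0) (List.ofFn q) 0) := by
    intro p q
    have n1 := ind_nonneg (¬ (q0 : ℤ) < |ZZ p|)
    have n2 := ind_nonneg (¬ (q0 : ℤ) < |ZZ q|)
    have n3 := ind_nonneg (¬ inB (512 * q0) (List.ofFn p) 0)
    have n4 := ind_nonneg (¬ inB (512 * q0) (List.ofFn q) 0)
    have n5 := ind_le_one (¬ EE (512 * q0) q0 p q)
    by_cases h1 : (q0 : ℤ) < |ZZ p|
    swap
    · have := ind_true h1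
      linarith
    by_cases h2 : (q0 : ℤ) < |ZZ q|
    swap
    · have := ind_true h2
      linarith
    by_cases h3 : inB (512 * q0) (List.ofFn p) 0
    swap
    · have := ind_true h3
      linarith
    by_cases h4 : inB (512 * q0) (List.ofFn q) 0
    swap
    · have := ind_true h4
      linarith
    have : ind (¬ EE (512 * q0) q0 p q) = 0 := by
      unfold ind
      rw [if_neg]
      push Not
      exact ⟨⟨h1, h2⟩, h3, h4⟩
    rw [this]
    linarith
  have h2 := Finset.sum_le_sum fun p (_ : p ∈ Finset.univ) =>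
    Finset.sum_le_sum fun q (_ : q ∈ (Finset.univ : Finset (Fin n → Bool × Bool))) => h1 p q
  refine h2.trans ?_
  simp only [Finset.sum_add_distrib, Finset.sum_const, Finset.card_univ, Fintype.card_pi,
    Finset.prod_const, Fintype.card_fin, nsmul_eq_mul, Fintype.card_prod, Fintype.card_bool,
    ← Finset.mul_sum]
  push_cast
  have e16 : (16 : ℝ) ^ n = 4 ^ n * 4 ^ n := by rw [← mul_pow]; norm_num
  rw [e16]
  have hp : (0 : ℝ) < 4 ^ n := by positivity
  have m1 := mul_le_mul_of_nonneg_left hnear hp.le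
  have m2 := mul_le_mul_of_nonneg_left hmax' hp.le
  linarith

/-- On the good event the lamps of `[x, y]` lie in `[-2Λ, 2Λ]`. -/
theorem hh_supp {Λ : ℤ} {q0 n : ℕ} {p q : Fin n → Bool × Bool} (hE : EE Λ q0 p q)
    (c c' : Fin n → Bool) (i : ℤ) (hi : hh (LL p c) (LL q c') (ZZ p) (ZZ q) i ≠ 0) :
    |i| ≤ 2 * Λ := by
  obtain ⟨_, hp, hq⟩ := hE
  have ha := inB_pos Λ p 0 hp
  have hb := inB_pos Λ q 0 hq
  rw [zero_add] at ha hb
  have hf := inB_lamp Λ p c 0 hp
  have hg := inB_lamp Λ q c' 0 hq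
  have hΛ : 0 < Λ := lt_of_le_of_lt (abs_nonneg _) ha
  rw [hh, Finsupp.sub_apply, Finsupp.sub_apply, Finsupp.add_apply, sh_apply, sh_apply] at hi
  by_contra hcon
  push Not at hcon
  apply hi
  have z1 : LL p c i = 0 := by
    by_contra h
    have := hf i h
    rw [add_zero] at this
    linarith
  have z2 : LL q c' (i - ZZ p) = 0 := by
    by_contra h
    have := hg _ h
    rw [add_zero] at this
    have h2 := abs_sub_abs_le_abs_sub i (ZZ p)
    linarith
  have z3 : LL p c (i - ZZ q) = 0 := by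
    by_contra h
    have := hf _ h
    rw [add_zero] at this
    have h2 := abs_sub_abs_le_abs_sub i (ZZ q)
    linarith
  have z4 : LL q c' i = 0 := by
    by_contra h
    have := hg i h
    rw [add_zero] at this
    linarith
  rw [z1, z2, z3, z4]
  decide

theorem hh_diam {Λ : ℤ} {q0 n : ℕ} {p q : Fin n → Bool × Bool} (hE : EE Λ q0 p q)
    (c c' : Fin n → Bool) (i j : ℤ) (hi : hh (LL p c) (LL q c') (ZZ p) (ZZ q) i ≠ 0)
    (hj : hh (LL p c) (LL q c') (ZZ p) (ZZ q) j ≠ 0) : i - j ≤ 4 * Λ := by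
  have h1 := (abs_le.1 (hh_supp hE c c' i hi)).2
  have h2 := (abs_le.1 (hh_supp hE c c' j hj)).1
  linarith

/-- The exponent `2049`. -/
def rr : ℕ := 2049

theorem rr_cast : (rr : ℤ) = 2049 := by norm_num [rr]

attribute [irreducible] rr

theorem shift_bounds {q0 n : ℕ} {p q : Fin n → Bool × Bool} (hE : EE (512 * q0) q0 p q)
    (C : ℕ) (hC : C ≤ q0) : (4 * (512 * q0) + C : ℤ) < |(rr : ℤ) * ZZ p| ∧
      |(rr : ℤ) * ZZ p| ≤ rr * (512 * q0) := by
  obtain ⟨⟨h1, _⟩, hp, _⟩ := hE
  have ha := inB_pos _ p 0 hp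
  rw [zero_add] at ha
  rw [abs_mul, rr_cast, abs_of_nonneg (by norm_num : (0 : ℤ) ≤ 2049)]
  have hC' : (C : ℤ) ≤ q0 := by exact_mod_cast hC
  constructor
  · linarith
  · linarith

/-- The number of pairs of walks satisfying the word. -/
noncomputable def cnt (k : ℕ → ZMod 2) (n : ℕ) : ℝ :=
  ∑ p : Fin n → Bool × Bool, ∑ q : Fin n → Bool × Bool,
    ∑ c : Fin n → Bool, ∑ c' : Fin n → Bool,
      ind (BB k (hh (LL p c) (LL q c') (ZZ p) (ZZ q))
        (sh (rr * ZZ p) (hh (LL p c) (LL q c') (ZZ p) (ZZ q))) = 0)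

theorem cnt_eq (k : ℕ → ZMod 2) (n : ℕ) :
    (∑ x : Fin n → (Bool × Bool) × Bool, ∑ y : Fin n → (Bool × Bool) × Bool,
      ind (FreeGroup.lift ![ev (step k) x, ev (step k) y] (word rr) = 1)) = cnt k n := by
  have h1 : ∀ (p q : Fin n → Bool × Bool) (c c' : Fin n → Bool),
      ind (FreeGroup.lift ![ev (step k) (fun i => (p i, c i)),
        ev (step k) (fun i => (q i, c' i))] (word rr) = 1) =
      ind (BB k (hh (LL p c) (LL q c') (ZZ p) (ZZ q))
        (sh (rr * ZZ p) (hh (LL p c) (LL q c') (ZZ p) (ZZ q))) = 0) := by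
    intro p q c c'
    congr 1
    rw [lift_word, eq_iff_iff]
    have e1 := ev_k k p c
    have e2 := ev_k k q c'
    rw [← e1.1, ← e1.2, ← e2.1, ← e2.2, ← wv_eq_one_iff, ← wv_coe]
    constructor
    · intro h; rw [h]; rfl
    · intro h; exact Subtype.ext h
  unfold cnt
  rw [sum_split]
  apply Finset.sum_congr rfl
  intro p _
  rw [Finset.sum_comm (s := Finset.univ) (t := Finset.univ)
      (f := fun (q : Fin n → Bool × Bool) (c : Fin n → Bool) => ∑ c' : Fin n → Bool,
        ind (BB k (hh (LL p c) (LL q c') (ZZ p) (ZZ q))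
        (sh (rr * ZZ p) (hh (LL p c) (LL q c') (ZZ p) (ZZ q))) = 0))]
  apply Finset.sum_congr rfl
  intro c _
  rw [sum_split]
  apply Finset.sum_congr rfl
  intro q _
  apply Finset.sum_congr rfl
  intro c' _
  exact h1 p q c c'

theorem sum_const4 (n : ℕ) (x : ℝ) :
    ∑ _c : Fin n → Bool, ∑ _c' : Fin n → Bool, x = x * 4 ^ n := by
  have : (4 : ℝ) ^ n = 2 ^ n * 2 ^ n := by rw [← mul_pow]; norm_num
  rw [this]
  simp
  ring

/-- If `k` vanishes on a long interval, the word is satisfied with high probability. -/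
theorem good_time (k : ℕ → ZMod 2) (C q0 : ℕ) (hq0 : 1 ≤ q0) (hC : C ≤ q0)
    (hk : ∀ m : ℕ, C < m → m ≤ (rr + 4) * (512 * q0) → k m = 0) :
    (1 - (1 / 15 + 1 / 64)) * 64 ^ ((64 * q0) ^ 2) ≤ cnt k ((64 * q0) ^ 2) := by
  have hE := EE_bound q0 hq0
  set n := (64 * q0) ^ 2 with hn
  have h1 : ∀ p q : Fin n → Bool × Bool, (1 - ind (¬ EE (512 * q0) q0 p q)) * 4 ^ n ≤
      ∑ c : Fin n → Bool, ∑ c' : Fin n → Bool,
      ind (BB k (hh (LL p c) (LL q c') (ZZ p) (ZZ q))
        (sh (rr * ZZ p) (hh (LL p c) (LL q c') (ZZ p) (ZZ q))) = 0) := by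
    intro p q
    by_cases h : EE (512 * q0) q0 p q
    · have h2 : ∀ c c' : Fin n → Bool, ind (BB k (hh (LL p c) (LL q c') (ZZ p) (ZZ q))
        (sh (rr * ZZ p) (hh (LL p c) (LL q c') (ZZ p) (ZZ q))) = 0) = 1 := by
        intro c c'
        apply ind_true
        obtain ⟨s1, s2⟩ := shift_bounds h C hC
        rw [BB_abs]
        apply BB_zero k _ _ (4 * (512 * q0)) (fun i j hi hj => hh_diam h c c' i j hi hj)
        · linarith
        · intro m hm1 hm2
          apply hk m
          · have : (C : ℤ) < m := by linarith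
            exact_mod_cast this
          · have : (m : ℤ) ≤ ((rr + 4) * (512 * q0) : ℕ) := by push_cast; linarith
            exact_mod_cast this
      simp only [h2, sum_const4]
      have := ind_nonneg (¬ EE (512 * q0) q0 p q)
      have h4 : (0 : ℝ) < 4 ^ n := by positivity
      nlinarith
    · rw [ind_true h]
      simp only [sub_self, zero_mul]
      exact Finset.sum_nonneg fun _ _ => Finset.sum_nonneg fun _ _ => ind_nonneg _
  have h2 := Finset.sum_le_sum fun p (_ : p ∈ Finset.univ) =>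
    Finset.sum_le_sum fun q (_ : q ∈ (Finset.univ : Finset (Fin n → Bool × Bool))) => h1 p q
  refine le_trans ?_ h2
  simp only [← Finset.sum_mul, Finset.sum_sub_distrib]
  have e1 : ∑ _p : Fin n → Bool × Bool, ∑ _q : Fin n → Bool × Bool, (1 : ℝ) = 16 ^ n := by
    have : (16 : ℝ) ^ n = 4 ^ n * 4 ^ n := by rw [← mul_pow]; norm_num
    rw [this]
    simp
  have e2 : (64 : ℝ) ^ n = 16 ^ n * 4 ^ n := by rw [← mul_pow]; norm_num
  rw [e1, e2, ← mul_assoc]
  apply mul_le_mul_of_nonneg_right _ (by positivity)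
  linarith

/-- The contribution of the good event. -/
noncomputable def cntE (k : ℕ → ZMod 2) (q0 n : ℕ) : ℝ :=
  ∑ p : Fin n → Bool × Bool, ∑ q : Fin n → Bool × Bool, ind (EE (512 * q0) q0 p q) *
    ∑ c : Fin n → Bool, ∑ c' : Fin n → Bool,
      ind (BB k (hh (LL p c) (LL q c') (ZZ p) (ZZ q))
        (sh (rr * ZZ p) (hh (LL p c) (LL q c') (ZZ p) (ZZ q))) = 0)

theorem cnt_le (k : ℕ → ZMod 2) (q0 : ℕ) (hq0 : 1 ≤ q0) :
    cnt k ((64 * q0) ^ 2) ≤ cntE k q0 ((64 * q0) ^ 2) +
      (1 / 15 + 1 / 64) * 64 ^ ((64 * q0) ^ 2) := by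
  have hE := EE_bound q0 hq0
  set n := (64 * q0) ^ 2 with hn
  have e2 : (64 : ℝ) ^ n = 16 ^ n * 4 ^ n := by rw [← mul_pow]; norm_num
  have h1 : cnt k n ≤ cntE k q0 n + ∑ p : Fin n → Bool × Bool, ∑ q : Fin n → Bool × Bool,
      ind (¬ EE (512 * q0) q0 p q) * 4 ^ n := by
    unfold cnt cntE
    rw [← Finset.sum_add_distrib]
    apply Finset.sum_le_sum
    intro p _
    rw [← Finset.sum_add_distrib]
    apply Finset.sum_le_sum
    intro q _
    by_cases h : EE (512 * q0) q0 p q
    · rw [ind_true h, one_mul]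
      have := ind_nonneg (¬ EE (512 * q0) q0 p q)
      have h4 : (0 : ℝ) < 4 ^ n := by positivity
      nlinarith
    · rw [ind_true h, one_mul]
      have h0 : ind (EE (512 * q0) q0 p q) = 0 := by unfold ind; rw [if_neg h]
      rw [h0, zero_mul, zero_add]
      have : (4 : ℝ) ^ n = 1 * 4 ^ n := by ring
      rw [this, ← sum_const4]
      exact Finset.sum_le_sum fun _ _ => Finset.sum_le_sum fun _ _ => ind_le_one _
  refine h1.trans ?_
  simp only [← Finset.sum_mul]
  rw [e2, ← mul_assoc]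
  have := mul_le_mul_of_nonneg_right hE (by positivity : (0 : ℝ) ≤ 4 ^ n)
  linarith

theorem cntE_local (k k' : ℕ → ZMod 2) (q0 n : ℕ)
    (hk : ∀ m : ℕ, m ≤ (rr + 4) * (512 * q0) → k m = k' m) : cntE k q0 n = cntE k' q0 n := by
  unfold cntE
  apply Finset.sum_congr rfl
  intro p _
  apply Finset.sum_congr rfl
  intro q _
  by_cases h : EE (512 * q0) q0 p q
  · refine congrArg (fun x => ind (EE (512 * q0) q0 p q) * x) ?_
    apply Finset.sum_congr rfl
    intro c _
    apply Finset.sum_congr rfl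
    intro c' _
    refine congrArg (fun x : ZMod 2 => ind (x = 0)) ?_
    obtain ⟨s1, s2⟩ := shift_bounds h 0 (Nat.zero_le _)
    rw [BB_abs k, BB_abs k', BB_local k k' _ _ (4 * (512 * q0))
      (fun i j hi hj => hh_diam h c c' i j hi hj) (by push_cast at s1; linarith)]
    intro m hm
    apply hk
    have : (m : ℤ) ≤ ((rr + 4) * (512 * q0) : ℕ) := by push_cast; linarith
    exact_mod_cast this
  · have h0 : ind (EE (512 * q0) q0 p q) = 0 := by unfold ind; rw [if_neg h]
    rw [h0, zero_mul, zero_mul]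

/-- Random values of `k` on a long interval make the probability at most about `3/4`. -/
theorem bad_time (K : ℕ → ZMod 2) (C q0 : ℕ) (hC : C ≤ q0) (n H : ℕ)
    (hH : (H : ℤ) = (rr + 4) * (512 * q0) + 1) :
    ∃ T : Fin H → ZMod 2, cntE (KK K C H T) q0 n ≤ 3 / 4 * 64 ^ n := by
  have e16 : (16 : ℝ) ^ n = 4 ^ n * 4 ^ n := by rw [← mul_pow]; norm_num
  have e64 : (64 : ℝ) ^ n = 16 ^ n * 4 ^ n := by rw [← mul_pow]; norm_num
  have e4 : (4 : ℝ) ^ n = 2 ^ n * 2 ^ n := by rw [← mul_pow]; norm_num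
  have key : ∑ T : Fin H → ZMod 2, cntE (KK K C H T) q0 n ≤
      ∑ _T : Fin H → ZMod 2, 3 / 4 * (64 : ℝ) ^ n := by
    have h1 : ∑ T : Fin H → ZMod 2, cntE (KK K C H T) q0 n =
        ∑ p : Fin n → Bool × Bool, ∑ q : Fin n → Bool × Bool, ind (EE (512 * q0) q0 p q) *
          ∑ c : Fin n → Bool, ∑ c' : Fin n → Bool, ∑ T : Fin H → ZMod 2,
            ind (BB (KK K C H T) (hh (LL p c) (LL q c') (ZZ p) (ZZ q))
              (sh (rr * ZZ p) (hh (LL p c) (LL q c') (ZZ p) (ZZ q))) = 0) := by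
      unfold cntE
      rw [Finset.sum_comm]
      apply Finset.sum_congr rfl
      intro p _
      rw [Finset.sum_comm]
      apply Finset.sum_congr rfl
      intro q _
      rw [← Finset.mul_sum]
      congr 1
      rw [Finset.sum_comm]
      apply Finset.sum_congr rfl
      intro c _
      rw [Finset.sum_comm]
    rw [h1]
    have h2 : ∀ p q : Fin n → Bool × Bool, ind (EE (512 * q0) q0 p q) *
          ∑ c : Fin n → Bool, ∑ c' : Fin n → Bool, ∑ T : Fin H → ZMod 2,
            ind (BB (KK K C H T) (hh (LL p c) (LL q c') (ZZ p) (ZZ q))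
              (sh (rr * ZZ p) (hh (LL p c) (LL q c') (ZZ p) (ZZ q))) = 0) ≤
        3 / 4 * 4 ^ n * 2 ^ H := by
      intro p q
      by_cases h : EE (512 * q0) q0 p q
      · rw [ind_true h, one_mul]
        obtain ⟨s1, s2⟩ := shift_bounds h C hC
        have ha : ZZ p ≠ 0 := by
          intro h0
          have := h.1.1
          rw [h0, abs_zero] at this
          have h3 : (0 : ℤ) ≤ (q0 : ℤ) := by positivity
          linarith
        have hb : ZZ q ≠ 0 := by
          intro h0
          have := h.1.2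
          rw [h0, abs_zero] at this
          have h3 : (0 : ℤ) ≤ (q0 : ℤ) := by positivity
          linarith
        have h3 : ∀ c c' : Fin n → Bool, ∑ T : Fin H → ZMod 2,
            ind (BB (KK K C H T) (hh (LL p c) (LL q c') (ZZ p) (ZZ q))
              (sh (rr * ZZ p) (hh (LL p c) (LL q c') (ZZ p) (ZZ q))) = 0) ≤
            2 ^ H / 2 * (1 + ind (hh (LL p c) (LL q c') (ZZ p) (ZZ q) = 0)) := by
          intro c c'
          by_cases h0 : hh (LL p c) (LL q c') (ZZ p) (ZZ q) = 0
          · rw [ind_true h0]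
            calc _ ≤ ∑ _T : Fin H → ZMod 2, (1 : ℝ) := Finset.sum_le_sum fun _ _ => ind_le_one _
              _ = 2 ^ H / 2 * (1 + 1) := by simp [ZMod.card]; ring
          · have h4 := average K C H (hh (LL p c) (LL q c') (ZZ p) (ZZ q)) h0
              |(rr : ℤ) * ZZ p| (4 * (512 * q0)) (fun i j hi hj => hh_diam h c c' i j hi hj)
              (by linarith) (by linarith) (by
                rw [hH]
                linarith)
            have h5 : ∀ T, ind (BB (KK K C H T) (hh (LL p c) (LL q c') (ZZ p) (ZZ q))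
              (sh (rr * ZZ p) (hh (LL p c) (LL q c') (ZZ p) (ZZ q))) = 0) =
              ind (BB (KK K C H T) (hh (LL p c) (LL q c') (ZZ p) (ZZ q))
              (sh |(rr : ℤ) * ZZ p| (hh (LL p c) (LL q c') (ZZ p) (ZZ q))) = 0) := by
              intro T
              rw [BB_abs]
            simp only [h5]
            rw [h4]
            have h6 := ind_nonneg (hh (LL p c) (LL q c') (ZZ p) (ZZ q) = 0)
            have h7 : (0 : ℝ) < 2 ^ H / 2 := by positivity
            nlinarith
        have h4 : ∑ c : Fin n → Bool, ∑ c' : Fin n → Bool,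
            2 ^ H / 2 * (1 + ind (hh (LL p c) (LL q c') (ZZ p) (ZZ q) = 0)) ≤
            3 / 4 * 4 ^ n * 2 ^ H := by
          simp only [← Finset.mul_sum, Finset.sum_add_distrib]
          have h5 : ∑ c : Fin n → Bool, ∑ c' : Fin n → Bool,
              ind (hh (LL p c) (LL q c') (ZZ p) (ZZ q) = 0) ≤
              ∑ _c : Fin n → Bool, (2 : ℝ) ^ n / 2 :=
            Finset.sum_le_sum fun c _ => half_hh _ _ _ ha q hb
          have h6 : ∑ _c : Fin n → Bool, (2 : ℝ) ^ n / 2 = 4 ^ n / 2 := by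
            rw [e4]; simp; ring
          have h7 : ∑ _c : Fin n → Bool, ∑ _c' : Fin n → Bool, (1 : ℝ) = 4 ^ n := by
            rw [sum_const4, one_mul]
          rw [h7]
          rw [h6] at h5
          have h8 : (0 : ℝ) < 2 ^ H / 2 := by positivity
          nlinarith
        exact (Finset.sum_le_sum fun c _ => Finset.sum_le_sum fun c' _ => h3 c c').trans h4
      · have h0 : ind (EE (512 * q0) q0 p q) = 0 := by unfold ind; rw [if_neg h]
        rw [h0, zero_mul]
        positivity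
    calc _ ≤ ∑ _p : Fin n → Bool × Bool, ∑ _q : Fin n → Bool × Bool,
          (3 / 4 * 4 ^ n * 2 ^ H : ℝ) :=
          Finset.sum_le_sum fun p _ => Finset.sum_le_sum fun q _ => h2 p q
      _ = ∑ _T : Fin H → ZMod 2, 3 / 4 * (64 : ℝ) ^ n := by
          rw [e64, e16]
          simp [ZMod.card]
          ring
  obtain ⟨T, _, hT⟩ := Finset.exists_le_of_sum_le Finset.univ_nonempty key
  exact ⟨T, hT⟩

/-! ### Choosing `k` -/

theorem forcing (P : ℕ → (ℕ → ZMod 2) → Prop)
    (h : ∀ (j : ℕ) (K : ℕ → ZMod 2) (C : ℕ), ∃ (K' : ℕ → ZMod 2) (H : ℕ), C < H ∧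
      (∀ m ≤ C, K' m = K m) ∧ ∀ k, (∀ m ≤ H, k m = K' m) → P j k) : ∃ k, ∀ j, P j k := by
  choose K' H hCH hK hP using h
  let σ : ℕ → (ℕ → ZMod 2) × ℕ := fun j =>
    Nat.rec (0, 0) (fun j s => (K' j s.1 s.2, H j s.1 s.2)) j
  have hσ : ∀ j, σ (j + 1) = (K' j (σ j).1 (σ j).2, H j (σ j).1 (σ j).2) := fun j => rfl
  have hmono : ∀ j, (σ j).2 < (σ (j + 1)).2 := fun j => by rw [hσ]; exact hCH _ _ _
  have hsm : StrictMono fun j => (σ j).2 := strictMono_nat_of_lt_succ hmono
  have hge : ∀ j, j ≤ (σ j).2 := hsm.id_le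
  have hstab : ∀ i j, i ≤ j → ∀ m ≤ (σ i).2, (σ j).1 m = (σ i).1 m := by
    intro i j hij
    induction j, hij using Nat.le_induction with
    | base => intro m _; rfl
    | succ j hij ih =>
      intro m hm
      rw [hσ]
      have h1 : m ≤ (σ j).2 := hm.trans (hsm.monotone hij)
      change K' j (σ j).1 (σ j).2 m = _
      rw [hK _ _ _ m h1]
      exact ih m hm
  refine ⟨fun m => (σ m).1 m, fun j => ?_⟩
  apply hP j (σ j).1 (σ j).2
  intro m hm
  have e : (K' j (σ j).1 (σ j).2) = (σ (j + 1)).1 := rfl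
  have e2 : H j (σ j).1 (σ j).2 = (σ (j + 1)).2 := rfl
  rw [e]
  rw [e2] at hm
  rcases le_total m (j + 1) with h1 | h1
  · exact (hstab m (j + 1) h1 m (hge m)).symm
  · exact hstab (j + 1) m h1 m hm

/-- The probability for the group with parameter `k`. -/
noncomputable def prob (k : ℕ → ZMod 2) (n : ℕ) : ℝ≥0∞ :=
  lawProb (lazyStep (S k) (S_nonempty k)) (word rr) n

theorem prob_eq (k : ℕ → ZMod 2) (n : ℕ) : prob k n = ENNReal.ofReal (cnt k n / 64 ^ n) := by
  rw [prob, lazy_eq, lawProb_eq_ofReal, cnt_eq]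
  congr 2
  simp only [Fintype.card_prod, Fintype.card_bool]
  rw [pow_mul]
  norm_num

theorem exists_k : ∃ k : ℕ → ZMod 2, (∀ N, ∃ n ≥ N, 91 / 100 * 64 ^ n ≤ cnt k n) ∧
    ∀ N, ∃ n ≥ N, cnt k n ≤ 84 / 100 * 64 ^ n := by
  obtain ⟨k, hk⟩ := forcing (fun j k => (∃ n ≥ j, 91 / 100 * 64 ^ n ≤ cnt k n) ∧
    ∃ n ≥ j, cnt k n ≤ 84 / 100 * 64 ^ n) (by
      intro j K C
      -- first a good time
      set q1 := max C j + 1 with hq1
      set H1 := (rr + 4) * (512 * q1) with hH1
      -- then a bad time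
      set q2 := max H1 j + 1 with hq2
      set H2 := (rr + 4) * (512 * q2) + 1 with hH2
      set K1 : ℕ → ZMod 2 := fun m => if m ≤ C then K m else 0 with hK1
      have hn1 : (64 * q1) ^ 2 ≥ j := by
        have h0 : j ≤ q1 := by rw [hq1]; exact le_trans (le_max_right _ _) (Nat.le_succ _)
        nlinarith [h0]
      have hn2 : (64 * q2) ^ 2 ≥ j := by
        have h0 : j ≤ q2 := by rw [hq2]; exact le_trans (le_max_right _ _) (Nat.le_succ _)
        nlinarith [h0]
      have hCq1 : C ≤ q1 := by rw [hq1]; exact le_trans (le_max_left _ _) (Nat.le_succ _)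
      have hH1q2 : H1 ≤ q2 := by rw [hq2]; exact le_trans (le_max_left _ _) (Nat.le_succ _)
      have hq1pos : 1 ≤ q1 := by rw [hq1]; exact Nat.le_add_left _ _
      have hq2pos : 1 ≤ q2 := by rw [hq2]; exact Nat.le_add_left _ _
      have hCH1 : C ≤ H1 := by
        rw [hH1]
        nlinarith [Nat.zero_le rr, hCq1]
      have hH1H2 : H1 < H2 := by
        rw [hH2]
        nlinarith [Nat.zero_le rr, hH1q2]
      obtain ⟨T, hT⟩ := bad_time K1 H1 q2 hH1q2 ((64 * q2) ^ 2) H2 (by rw [hH2]; push_cast; ring)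
      refine ⟨KK K1 H1 H2 T, H2, lt_of_le_of_lt hCH1 hH1H2, ?_, ?_⟩
      · intro m hm
        rw [KK, dif_neg, hK1]
        · simp only
          rw [if_pos hm]
        · intro h
          exact absurd (hm.trans hCH1) (not_le.2 h.1)
      · intro k hk
        refine ⟨⟨_, hn1, ?_⟩, ⟨_, hn2, ?_⟩⟩
        · have h1 := good_time k C q1 hq1pos hCq1 (by
            intro m hm1 hm2
            have hm2' : m ≤ H1 := hm2
            rw [hk m (hm2'.trans hH1H2.le), KK, dif_neg, hK1]
            · simp only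
              rw [if_neg (not_le.2 hm1)]
            · intro h
              exact absurd hm2' (not_le.2 h.1))
          refine le_trans ?_ h1
          apply mul_le_mul_of_nonneg_right _ (by positivity)
          norm_num
        · have h1 := cnt_le k q2 hq2pos
          have h2 := cntE_local k (KK K1 H1 H2 T) q2 ((64 * q2) ^ 2) (by
            intro m hm
            exact hk m (hm.trans (Nat.le_succ _)))
          rw [h2] at h1
          have h3 : (0 : ℝ) < 64 ^ ((64 * q2) ^ 2) := by positivity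
          generalize (64 : ℝ) ^ ((64 * q2) ^ 2) = A at h1 h3 hT ⊢
          linarith)
  exact ⟨k, fun N => (hk N).1, fun N => (hk N).2⟩

theorem gen_S (k : ℕ → ZMod 2) : Subgroup.closure (S k : Set (G k)) = ⊤ := by
  have h := Subgroup.closure_closure_coe_preimage (k := ({tt k, at' k} : Set (W k)))
  rw [← top_le_iff, ← h]
  apply Subgroup.closure_mono
  intro x hx
  rw [Set.mem_preimage, Set.mem_insert_iff, Set.mem_singleton_iff] at hx
  have m1 : gt k ∈ (S k : Set (G k)) := by simp [S]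
  have m2 : ga k ∈ (S k : Set (G k)) := by simp [S]
  rcases hx with h | h
  · have e : x = gt k := Subtype.ext h
    rw [e]
    exact m1
  · have e : x = ga k := Subtype.ext h
    rw [e]
    exact m2

theorem symm_S (k : ℕ → ZMod 2) : ∀ s ∈ S k, s⁻¹ ∈ S k := by
  intro s hs
  simp only [S, Finset.mem_insert, Finset.mem_singleton] at hs ⊢
  rcases hs with rfl | rfl | rfl | rfl <;> simp

theorem result : ∃ (G : Type) (_ : Group G) (S : Finset G) (hS : S.Nonempty)
    (w : FreeGroup (Fin 2)), (∀ s ∈ S, s⁻¹ ∈ S) ∧ Subgroup.closure (S : Set G) = ⊤ ∧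
      liminf (lawProb (lazyStep S hS) w) atTop < limsup (lawProb (lazyStep S hS) w) atTop := by
  obtain ⟨k, h1, h2⟩ := exists_k
  refine ⟨G k, inferInstance, S k, S_nonempty k, word rr, symm_S k, gen_S k, ?_⟩
  have hlim : liminf (prob k) atTop ≤ ENNReal.ofReal (84 / 100) := by
    apply liminf_le_of_frequently_le'
    rw [Filter.frequently_atTop]
    intro N
    obtain ⟨n, hn, h⟩ := h2 N
    refine ⟨n, hn, ?_⟩
    rw [prob_eq]
    apply ENNReal.ofReal_le_ofReal
    rw [div_le_iff₀ (by positivity)]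
    exact h
  have hsup : ENNReal.ofReal (91 / 100) ≤ limsup (prob k) atTop := by
    apply le_limsup_of_frequently_le'
    rw [Filter.frequently_atTop]
    intro N
    obtain ⟨n, hn, h⟩ := h1 N
    refine ⟨n, hn, ?_⟩
    rw [prob_eq]
    apply ENNReal.ofReal_le_ofReal
    rw [le_div_iff₀ (by positivity)]
    exact h
  refine lt_of_le_of_lt hlim (lt_of_lt_of_le ?_ hsup)
  rw [ENNReal.ofReal_lt_ofReal_iff (by norm_num)]
  norm_num

end Pool.Agent.Results.MP_6a29fd_al.NoLimit
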